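import Pool.Agent.Helper17.RS.Sheet

/-! # MULTS: the multiplicity of family S (rank seven)

A value of `(A, B)` is taken at most `K N^(9/38)` times: every class of the third parameter
modulo `13^k`, `13^(190 k) > K N^45`, contains at most 19 points. -/

set_option autoImplicit false

namespace Pool.Helper17.RS

namespace MULTSProof

theorem MM_pos : 0 < MM := by
  unfold MM
  exact_mod_cast Nat.factorial_pos 1000

theorem dvd_MM : (13 : ℤ) ∣ MM := by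
  unfold MM
  exact_mod_cast Nat.dvd_factorial (by norm_num) (by norm_num)

theorem yy_inj (b : Fin 3 → ℤ) (t t' : Fin 3 → ℕ) (h : yy b t = yy b t') : t = t' := by
  funext i
  have h1 := congrFun h i
  simp only [yy] at h1
  have h2 : MM * ((t i : ℤ) - (t' i : ℤ)) = 0 := by linarith
  rcases mul_eq_zero.1 h2 with h3 | h3
  · exact absurd h3 MM_pos.ne'
  · have : (t i : ℤ) = (t' i : ℤ) := by linarith
    exact_mod_cast this

theorem eq_of_pow_dvd (a a' : ℤ) (h : ∀ m : ℕ, (13 : ℤ) ^ m ∣ a - a') : a = a' := by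
  by_contra hne
  have h0 : a - a' ≠ 0 := sub_ne_zero.2 hne
  have h1 := Int.le_of_dvd (abs_pos.2 h0) ((dvd_abs _ _).2 (h (a - a').natAbs))
  have h2 : (a - a').natAbs < 13 ^ (a - a').natAbs := Nat.lt_pow_self (by norm_num)
  have h3 : ((a - a').natAbs : ℤ) < (13 : ℤ) ^ (a - a').natAbs := by exact_mod_cast h2
  rw [Int.natCast_natAbs] at h3
  linarith

theorem class_le (hDETS : ST_DETS) (hINJS : ST_INJS) (hCERTS : ST_CERTS) (C K : ℤ)
    (hC : ∀ N : ℕ, 1 ≤ N → ∀ t ∈ Box N, (∀ i, 0 < yy sb t i ∧ yy sb t i ≤ C * (N : ℤ)))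
    (hK : ∀ N : ℕ, 1 ≤ N → ∀ Q : Fin 20 → Fin 3 → ℤ, (∀ i l, |Q i l| ≤ C * (N : ℤ)) →
      |(MQ Q).det| ≤ K * (N : ℤ) ^ 45)
    (N : ℕ) (hN : 1 ≤ N) (k : ℕ) (hk : K * (N : ℤ) ^ 45 < (13 : ℤ) ^ (190 * k))
    (p : ℤ × ℤ) (r : ℕ) (S : Finset (Fin 3 → ℕ)) (hS : ∀ t ∈ S, t ∈ Box N ∧
      sA (yy sb t) = p.1 ∧ sB (yy sb t) = p.2 ∧ t 2 % 13 ^ k = r) : S.card ≤ 19 := by
  by_contra hlt
  have h20 : 20 ≤ S.card := by omega
  obtain ⟨T, hT, hT20⟩ := Finset.exists_subset_card_eq h20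
  have e : Fin 20 ≃ T := (Fintype.equivOfCardEq (by simp [hT20]))
  have hcong : ∀ t : Fin 3 → ℕ, Cong sb (yy sb t) := by
    intro t i
    exact ⟨(t i : ℤ), by simp only [yy]; ring⟩
  have hmod : ∀ t : Fin 3 → ℕ, ∀ l, (13 : ℤ) ∣ yy sb t l - sb l := by
    intro t l
    exact dvd_trans dvd_MM (hcong t l)
  have hmem : ∀ i, ((e i : Fin 3 → ℕ)) ∈ S := fun i => hT (e i).2
  have hval : ∀ i, FA (yy sb (e i) 0) (yy sb (e i) 1) (yy sb (e i) 2) = -(3 * p.1) ∧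
      FB (yy sb (e i) 0) (yy sb (e i) 1) (yy sb (e i) 2) = 27 * p.2 := by
    intro i
    obtain ⟨h1, h2, _⟩ := hCERTS (yy sb (e i)) (hcong _)
    obtain ⟨_, h3, h4, _⟩ := hS _ (hmem i)
    rw [h3] at h1
    rw [h4] at h2
    exact ⟨by linarith, h2.symm⟩
  have hm0 : ∀ i, (13 : ℤ) ∣ yy sb (e i) 0 - 4 := fun i => by simpa [sb] using hmod (e i) 0
  have hm1 : ∀ i, (13 : ℤ) ∣ yy sb (e i) 1 - 7 := fun i => by simpa [sb] using hmod (e i) 1
  have hm2 : ∀ i, (13 : ℤ) ∣ yy sb (e i) 2 - 11 := fun i => by simpa [sb] using hmod (e i) 2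
  obtain ⟨hd0, hd1⟩ := hDETS (fun i => yy sb (e i)) (fun i => ⟨hm0 i, hm1 i, hm2 i⟩)
    (fun i j => by
      obtain ⟨h1, h2⟩ := hval i
      obtain ⟨h3, h4⟩ := hval j
      exact ⟨h1.trans h3.symm, h2.trans h4.symm⟩)
    (by
      intro i j hij
      have hij' : yy sb (e i) 2 = yy sb (e j) 2 := hij
      obtain ⟨h1, h2⟩ := hval i
      obtain ⟨h3, h4⟩ := hval j
      have key : ∀ m : ℕ, (13 : ℤ) ^ m ∣ yy sb (e i) 0 - yy sb (e j) 0 ∧
          (13 : ℤ) ^ m ∣ yy sb (e i) 1 - yy sb (e j) 1 := by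
        intro m
        refine hINJS m _ _ _ _ (yy sb (e i) 2) (hm0 i) (hm1 i) (hm0 j) (hm1 j) (hm2 i) ?_ ?_
        · rw [h1, hij', h3, sub_self]
          exact dvd_zero _
        · rw [h2, hij', h4, sub_self]
          exact dvd_zero _
      have ha := eq_of_pow_dvd _ _ (fun m => (key m).1)
      have hb := eq_of_pow_dvd _ _ (fun m => (key m).2)
      have hy : yy sb (e i) = yy sb (e j) := by
        funext l
        fin_cases l
        · exact ha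
        · exact hb
        · exact hij'
      exact e.injective (Subtype.ext (yy_inj _ _ _ hy)))
  have hdiv := hd1 k (by
    intro i j
    have h1 := (hS _ (hmem i)).2.2.2
    have h2 := (hS _ (hmem j)).2.2.2
    have h3 : ((e j : Fin 3 → ℕ) 2) ≡ ((e i : Fin 3 → ℕ) 2) [MOD 13 ^ k] := by
      unfold Nat.ModEq
      rw [h1, h2]
    have h4 := (Nat.modEq_iff_dvd.1 h3)
    have h5 : yy sb (e i) 2 - yy sb (e j) 2 =
        MM * ((((e i : Fin 3 → ℕ) 2 : ℕ) : ℤ) - (((e j : Fin 3 → ℕ) 2 : ℕ) : ℤ)) := by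
      simp only [yy]
      ring
    have h6 : (13 : ℤ) ^ k ∣ yy sb (e i) 2 - yy sb (e j) 2 := by
      rw [h5]
      refine dvd_mul_of_dvd_right ?_ _
      push_cast at h4
      exact h4
    exact h6)
  have hle := Int.le_of_dvd (abs_pos.2 hd0) ((dvd_abs _ _).2 hdiv)
  have hle2 := hK N hN (fun i => yy sb (e i)) (fun i l => by
    obtain ⟨h1, h2⟩ := hC N hN _ (hS _ (hmem i)).1 l
    rw [abs_of_pos h1]
    exact h2)
  exact absurd (lt_of_le_of_lt (hle.trans hle2) hk) (lt_irrefl _)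

end MULTSProof

open MULTSProof in
theorem st_MULTS (hDETS : ST_DETS) (hSIZE : ST_SIZE) (hINJS : ST_INJS) (hCERTS : ST_CERTS)
    (hBNDS : ST_BNDS) : ST_MULTS := by
  classical
  obtain ⟨C, hC1, hC⟩ := hBNDS
  obtain ⟨K, hK1, hK⟩ := hSIZE C hC1
  have hK0 : (0 : ℝ) < (K : ℝ) := by exact_mod_cast (lt_of_lt_of_le one_pos hK1)
  refine ⟨247 * (K : ℝ) ^ ((1 : ℝ) / 190), by positivity, ?_⟩
  intro N hN p
  have hex : ∃ k : ℕ, K * (N : ℤ) ^ 45 < (13 : ℤ) ^ (190 * k) := by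
    refine ⟨(K * (N : ℤ) ^ 45).natAbs, ?_⟩
    have h2 : (K * (N : ℤ) ^ 45).natAbs < 13 ^ (K * (N : ℤ) ^ 45).natAbs :=
      Nat.lt_pow_self (by norm_num)
    have h3 : (13 : ℕ) ^ (K * (N : ℤ) ^ 45).natAbs ≤
        13 ^ (190 * (K * (N : ℤ) ^ 45).natAbs) :=
      Nat.pow_le_pow_right (by norm_num) (by omega)
    have h4 : ((K * (N : ℤ) ^ 45).natAbs : ℤ) < (13 : ℤ) ^ (190 * (K * (N : ℤ) ^ 45).natAbs) := by
      exact_mod_cast lt_of_lt_of_le h2 h3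
    exact lt_of_le_of_lt (Int.le_natAbs) h4
  obtain ⟨k, hk, hmin⟩ : ∃ k : ℕ, K * (N : ℤ) ^ 45 < (13 : ℤ) ^ (190 * k) ∧
      ∀ m < k, ¬ K * (N : ℤ) ^ 45 < (13 : ℤ) ^ (190 * m) :=
    ⟨Nat.find hex, Nat.find_spec hex, fun m hm => Nat.find_min hex hm⟩
  have hN0 : (0 : ℤ) < (N : ℤ) := by exact_mod_cast hN
  have hge1 : (1 : ℤ) ≤ K * (N : ℤ) ^ 45 := by
    have : (0 : ℤ) < K * (N : ℤ) ^ 45 := mul_pos (by linarith) (pow_pos hN0 _)
    linarith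
  have hk0 : k ≠ 0 := by
    rintro rfl
    simp only [mul_zero, pow_zero] at hk
    linarith
  obtain ⟨l, rfl⟩ : ∃ l, k = l + 1 := Nat.exists_eq_succ_of_ne_zero hk0
  have hl : (13 : ℤ) ^ (190 * l) ≤ K * (N : ℤ) ^ 45 := not_lt.1 (hmin l (Nat.lt_succ_self l))
  have hcard : ((Box N).filter (fun t => sA (yy sb t) = p.1 ∧ sB (yy sb t) = p.2)).card ≤
      19 * (Finset.range (13 ^ (l + 1))).card := by
    refine Finset.card_le_mul_card_image_of_maps_to (f := fun t => t 2 % 13 ^ (l + 1)) ?_ 19 ?_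
    · intro t _
      exact Finset.mem_range.2 (Nat.mod_lt _ (by positivity))
    · intro r _
      refine class_le hDETS hINJS hCERTS C K (fun N hN t ht => (hC N hN t ht).1) hK N hN (l + 1)
        hk p r _ ?_
      intro t ht
      obtain ⟨h1, h2⟩ := Finset.mem_filter.1 ht
      obtain ⟨h3, h4⟩ := Finset.mem_filter.1 h1
      exact ⟨h3, h4.1, h4.2, h2⟩
  rw [Finset.card_range] at hcard
  have hlR : ((13 : ℝ) ^ l) ≤ (K : ℝ) ^ ((1 : ℝ) / 190) * (N : ℝ) ^ ((9 : ℝ) / 38) := by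
    have h1 : ((13 : ℝ) ^ l) ^ (190 : ℕ) ≤ (K : ℝ) * (N : ℝ) ^ (45 : ℕ) := by
      rw [← pow_mul, mul_comm l 190]
      exact_mod_cast hl
    have h2 : (13 : ℝ) ^ l = (((13 : ℝ) ^ l) ^ (190 : ℕ)) ^ ((1 : ℝ) / 190) := by
      rw [← Real.rpow_natCast (((13 : ℝ) ^ l)) 190, ← Real.rpow_mul (by positivity)]
      norm_num
    rw [h2]
    calc (((13 : ℝ) ^ l) ^ (190 : ℕ)) ^ ((1 : ℝ) / 190)
        ≤ ((K : ℝ) * (N : ℝ) ^ (45 : ℕ)) ^ ((1 : ℝ) / 190) :=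
          Real.rpow_le_rpow (by positivity) h1 (by norm_num)
      _ = (K : ℝ) ^ ((1 : ℝ) / 190) * (N : ℝ) ^ ((9 : ℝ) / 38) := by
          rw [Real.mul_rpow hK0.le (by positivity), ← Real.rpow_natCast (N : ℝ) 45,
            ← Real.rpow_mul (Nat.cast_nonneg N)]
          norm_num
  have hcR : (((Box N).filter (fun t => sA (yy sb t) = p.1 ∧ sB (yy sb t) = p.2)).card : ℝ) ≤
      19 * (13 : ℝ) ^ (l + 1) := by exact_mod_cast hcard
  calc (((Box N).filter (fun t => sA (yy sb t) = p.1 ∧ sB (yy sb t) = p.2)).card : ℝ)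
      ≤ 19 * (13 : ℝ) ^ (l + 1) := hcR
    _ = 247 * (13 : ℝ) ^ l := by rw [pow_succ]; ring
    _ ≤ 247 * ((K : ℝ) ^ ((1 : ℝ) / 190) * (N : ℝ) ^ ((9 : ℝ) / 38)) := by gcongr
    _ = 247 * (K : ℝ) ^ ((1 : ℝ) / 190) * (N : ℝ) ^ ((9 : ℝ) / 38) := by ring

end Pool.Helper17.RS
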